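import Pool.Agent.Lib.MP_5d65a3_an.Final

set_option autoImplicit false

open Set Pool.Agent.MP_5d65a3_an

namespace Pool.Agent.Results.MP_5d65a3_an.MirrorSpectrum

/-- There is an infinite CIFS (on the line) whose dimension spectrum `K` is
`[0, 1/500] ∪ [3/1000, 1/200]`, hence not an interval `[0, l]`, while the mirror image `sup K - K`
is the dimension spectrum of an infinite CIFS as well. -/
theorem result : ∃ K : Set ℝ, K = Icc 0 (1 / 500) ∪ Icc (3 / 1000) (1 / 200) ∧
    (∃ U : CIFS, Infinite U.E ∧ U.spectrum = K) ∧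
    (∃ U' : CIFS, Infinite U'.E ∧ U'.spectrum = (fun x => sSup K - x) '' K) ∧
    ¬ ∃ l > 0, K = Icc 0 l :=
  mirror

end Pool.Agent.Results.MP_5d65a3_an.MirrorSpectrum
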